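import Pool.Agent.Y745.LD.Final
import Pool.Agent.Y745.UP.All

/-!
# The exponent in the Gonek–Hejhal conjecture for the zeros on the critical line

Unconditionally, for `0 ≤ lam < 2` the sum of `|ζ'(ρ)| ^ (2 lam)` over the simple zeros on the critical line with
`0 < γ ≤ T` is `T (log T) ^ ((lam + 1) ^ 2 + o(1))`. For all real `lam` it is at least
`T (log T) ^ ((lam + 1) ^ 2 - ε)` for all large `T`; if all nontrivial zeros are simple, then this lower bound holds
for the full discrete moment `J_lam (T)`.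
-/

open Filter Topology Complex

namespace Pool.Agent.Results.MP_69b2e4_nt.CriticalExponents

/-- the nontrivial zeros of zeta with ordinate in `(0, T]` -/
def zeros (T : ℝ) : Set ℂ :=
  {s : ℂ | riemannZeta s = 0 ∧ 0 < s.re ∧ s.re < 1 ∧ 0 < s.im ∧ s.im ≤ T}

/-- the simple ones on the critical line -/
def critSimple (T : ℝ) : Set ℂ := {s : ℂ | s ∈ zeros T ∧ s.re = 1 / 2 ∧ deriv riemannZeta s ≠ 0}

/-- the simple zeros hypothesis -/
def SZC : Prop := ∀ s : ℂ, riemannZeta s = 0 → 0 < s.re → s.re < 1 → deriv riemannZeta s ≠ 0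

/-- the sum of `|ζ'(ρ)| ^ (2 lam)` over the simple zeros on the critical line -/
noncomputable def Jcrit (lam T : ℝ) : ℝ := ∑ᶠ s ∈ critSimple T, ‖deriv riemannZeta s‖ ^ (2 * lam)

/-- the discrete moment `J_lam (T)` over all nontrivial zeros -/
noncomputable def J (lam T : ℝ) : ℝ := ∑ᶠ s ∈ zeros T, ‖deriv riemannZeta s‖ ^ (2 * lam)

lemma zeros_eq (T : ℝ) : zeros T = H370.zset riemannZeta 0 T := by
  ext s
  simp only [zeros, H370.zset, Set.mem_ofPred_eq]
  tauto

/-- the set of nontrivial zeros up to height `T` is finite -/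
theorem zeros_finite (T : ℝ) : (zeros T).Finite := by
  rw [zeros_eq]
  exact H370.zeta_zeros_finite T

theorem critSimple_finite (T : ℝ) : (critSimple T).Finite := (zeros_finite T).subset fun _ hs => hs.1

lemma zeta_analytic {s : ℂ} (hs : s ≠ 1) : AnalyticAt ℂ riemannZeta s := by
  have : DifferentiableOn ℂ riemannZeta ({1}ᶜ : Set ℂ) := fun z hz =>
    (differentiableAt_riemannZeta hz).differentiableWithinAt
  exact this.analyticAt (isOpen_compl_singleton.mem_nhds hs)

lemma deriv_ne {s : ℂ} (hs : s ≠ 1) (h : riemannZeta s = 0) (h1 : analyticOrderNatAt riemannZeta s = 1) :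
    deriv riemannZeta s ≠ 0 := by
  have ha := zeta_analytic hs
  have h2 : analyticOrderAt riemannZeta s = 1 := by
    unfold analyticOrderNatAt at h1
    have h3 : analyticOrderAt riemannZeta s ≠ ⊤ := by
      intro h4; rw [h4] at h1; simp at h1
    rw [← ENat.coe_toNat h3, h1]; rfl
  have h3 := ha.analyticOrderAt_deriv_add_one
  simp only [h, sub_zero] at h3
  rw [h2] at h3
  have h4 : analyticOrderAt (deriv riemannZeta) s = 0 := by
    revert h3
    generalize analyticOrderAt (deriv riemannZeta) s = x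
    intro h3
    cases x with
    | top => simp at h3
    | coe n =>
      have h6 : n + 1 = 1 := by exact_mod_cast h3
      have h7 : n = 0 := by omega
      rw [h7]; rfl
  exact ha.deriv.analyticOrderAt_eq_zero.mp h4

lemma J_ge (lam T : ℝ) : Jcrit lam T ≤ J lam T := by
  unfold Jcrit J
  rw [finsum_mem_eq_finite_toFinset_sum _ (critSimple_finite T), finsum_mem_eq_finite_toFinset_sum _ (zeros_finite T)]
  refine Finset.sum_le_sum_of_subset_of_nonneg ?_ fun s _ _ => by positivity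
  intro s hs
  rw [Set.Finite.mem_toFinset] at hs ⊢
  exact hs.1

theorem main (lam ε : ℝ) (hε : 0 < ε) : ∀ᶠ T : ℝ in atTop,
    T * Real.log T ^ ((lam + 1) ^ 2 - ε) ≤ Jcrit lam T := by
  classical
  obtain ⟨δ, hδ, hδ1, h⟩ := Pool.Agent.Y745.LD.final
  set k1 : ℝ := 1 + 2 * |lam| with hk1
  have hk0 : 0 < k1 := by positivity
  set ε' : ℝ := ε / (2 * k1) with hε'
  have hε'0 : 0 < ε' := by positivity
  have hεk : k1 * ε' = ε / 2 := by rw [hε']; field_simp
  set p : ℝ := (lam + 1) ^ 2 - ε / 2 with hp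
  have h' := (tendsto_id.atTop_div_const (show (0:ℝ) < 2 by norm_num)).eventually (h lam ε' hε'0)
  filter_upwards [h', Real.tendsto_log_atTop.eventually_ge_atTop 4,
    Real.tendsto_log_atTop.eventually ((tendsto_rpow_atTop (show 0 < ε / 2 by positivity)).eventually_ge_atTop
      (2 * (2:ℝ) ^ |p|)), eventually_ge_atTop 40] with T h1 h2 h3 h4
  simp only [id] at h1
  obtain ⟨U1, U2, hU1, hU1', hU2, hU2', hcount⟩ := h1
  set L := Real.log T with hL
  set T' := T / 2 with hT'
  set L' := Real.log T' with hL'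
  have hT0 : 0 < T := by linarith
  have hT'0 : 0 < T' := by rw [hT']; linarith
  have hL0 : 0 < L := by linarith
  have hl2 : 0 ≤ Real.log 2 := Real.log_nonneg (by norm_num)
  have hl2' : Real.log 2 ≤ 1 := by linarith [Real.log_two_lt_d9]
  have hLL' : L' = L - Real.log 2 := Real.log_div hT0.ne' (by norm_num)
  have hL'1 : 1 ≤ L' := by linarith
  have hL'0 : 0 < L' := by linarith
  have hℓ : Pool.Agent.Y745.LD.LL T' = Real.log L' := rfl
  have hℓ0 : 0 ≤ Real.log L' := Real.log_nonneg hL'1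
  rw [hℓ] at hcount
  set F := (Pool.Agent.Y745.SW.isoS U1 U2 (δ / L')).filter (fun s => T' + 2 ≤ s.im ∧ s.im ≤ 2 * T' - 2 ∧
        |Real.log ‖deriv riemannZeta s‖ - (1 + lam) * Real.log L'| ≤ ε' * Real.log L') with hF
  -- the zeros in `F`
  have hFs : ∀ s ∈ F, s ∈ critSimple T ∧ L' ^ (2 * lam * (1 + lam) - 2 * |lam| * ε') ≤
      ‖deriv riemannZeta s‖ ^ (2 * lam) := by
    intro s hs
    rw [hF, Finset.mem_filter] at hs
    obtain ⟨hsI, hs1, hs2, hs3⟩ := hs
    unfold Pool.Agent.Y745.SW.isoS at hsI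
    rw [Finset.mem_filter] at hsI
    obtain ⟨hsZ, hre, hmul, -⟩ := hsI
    have hsz := (H370.mem_Zf H370.good_zeta (by linarith : 1 ≤ U1)).mp hsZ
    have hs1' : s ≠ 1 := by
      rintro rfl
      norm_num at hre
    have hd : deriv riemannZeta s ≠ 0 := deriv_ne hs1' hsz.2.2.2.2 hmul
    have hn0 : 0 < ‖deriv riemannZeta s‖ := norm_pos_iff.2 hd
    have e1 : 2 * T' = T := by rw [hT']; ring
    refine ⟨⟨⟨hsz.2.2.2.2, hsz.1, hsz.2.1, by linarith, by linarith⟩, hre, hd⟩, ?_⟩
    rw [Real.rpow_def_of_pos hL'0, Real.rpow_def_of_pos hn0, Real.exp_le_exp]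
    have h5 : |lam * (Real.log ‖deriv riemannZeta s‖ - (1 + lam) * Real.log L')| ≤ |lam| * (ε' * Real.log L') := by
      rw [abs_mul]
      exact mul_le_mul_of_nonneg_left hs3 (abs_nonneg _)
    have h6 := (abs_le.1 h5).1
    calc Real.log L' * (2 * lam * (1 + lam) - 2 * |lam| * ε') =
        2 * lam * ((1 + lam) * Real.log L') + 2 * (-(|lam| * (ε' * Real.log L'))) := by ring
      _ ≤ 2 * lam * ((1 + lam) * Real.log L') +
          2 * (lam * (Real.log ‖deriv riemannZeta s‖ - (1 + lam) * Real.log L')) := by linarith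
      _ = _ := by ring
  -- the sum
  have hsum : (F.card : ℝ) * L' ^ (2 * lam * (1 + lam) - 2 * |lam| * ε') ≤ Jcrit lam T := by
    unfold Jcrit
    rw [finsum_mem_eq_finite_toFinset_sum _ (critSimple_finite T)]
    calc (F.card : ℝ) * L' ^ (2 * lam * (1 + lam) - 2 * |lam| * ε') =
        ∑ s ∈ F, L' ^ (2 * lam * (1 + lam) - 2 * |lam| * ε') := by rw [Finset.sum_const, nsmul_eq_mul]
      _ ≤ ∑ s ∈ F, ‖deriv riemannZeta s‖ ^ (2 * lam) := Finset.sum_le_sum fun s hs => (hFs s hs).2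
      _ ≤ _ := by
        refine Finset.sum_le_sum_of_subset_of_nonneg (fun s hs => ?_) fun s _ _ => by positivity
        rw [Set.Finite.mem_toFinset]
        exact (hFs s hs).1
  refine le_trans ?_ hsum
  have hq0 : 0 ≤ L' ^ (2 * lam * (1 + lam) - 2 * |lam| * ε') := Real.rpow_nonneg hL'0.le _
  refine le_trans ?_ (mul_le_mul_of_nonneg_right hcount hq0)
  have e2 : T' * L' ^ (1 - lam ^ 2 - ε') * L' ^ (2 * lam * (1 + lam) - 2 * |lam| * ε') = T' * L' ^ p := by
    rw [mul_assoc, ← Real.rpow_add hL'0]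
    congr 2
    rw [hp, ← hεk, hk1]
    ring
  rw [e2]
  -- comparison of the powers
  have h5 : L ^ p ≤ (2:ℝ) ^ |p| * L' ^ p := by
    rw [Real.rpow_def_of_pos hL0, Real.rpow_def_of_pos hL'0, Real.rpow_def_of_pos (by norm_num : (0:ℝ) < 2),
      ← Real.exp_add, Real.exp_le_exp]
    have h6 : Real.log L' ≤ Real.log L := Real.log_le_log hL'0 (by linarith)
    have h7 : Real.log L ≤ Real.log 2 + Real.log L' := by
      rw [← Real.log_mul (by norm_num) hL'0.ne']
      exact Real.log_le_log hL0 (by linarith)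
    have h8 : |p * (Real.log L - Real.log L')| ≤ |p| * Real.log 2 := by
      rw [abs_mul]
      refine mul_le_mul_of_nonneg_left ?_ (abs_nonneg _)
      rw [abs_le]; constructor <;> linarith
    have h9 := (abs_le.1 h8).2
    calc Real.log L * p = p * (Real.log L - Real.log L') + Real.log L' * p := by ring
      _ ≤ |p| * Real.log 2 + Real.log L' * p := by linarith
      _ = _ := by ring
  have h2p : 0 < (2:ℝ) ^ |p| := Real.rpow_pos_of_pos (by norm_num) _
  have hLp : 0 ≤ L ^ ((lam + 1) ^ 2 - ε) := Real.rpow_nonneg hL0.le _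
  have h6 : 2 * (2:ℝ) ^ |p| * L ^ ((lam + 1) ^ 2 - ε) ≤ (2:ℝ) ^ |p| * L' ^ p := by
    refine le_trans ?_ h5
    calc 2 * (2:ℝ) ^ |p| * L ^ ((lam + 1) ^ 2 - ε) ≤ L ^ (ε / 2) * L ^ ((lam + 1) ^ 2 - ε) :=
          mul_le_mul_of_nonneg_right h3 hLp
      _ = L ^ p := by
          rw [← Real.rpow_add hL0]
          congr 1
          rw [hp]; ring
  have h7 : 2 * L ^ ((lam + 1) ^ 2 - ε) ≤ L' ^ p := by
    have e3 : 2 * (2:ℝ) ^ |p| * L ^ ((lam + 1) ^ 2 - ε) = (2:ℝ) ^ |p| * (2 * L ^ ((lam + 1) ^ 2 - ε)) := by ring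
    rw [e3] at h6
    exact le_of_mul_le_mul_left h6 h2p
  calc T * L ^ ((lam + 1) ^ 2 - ε) = T' * (2 * L ^ ((lam + 1) ^ 2 - ε)) := by rw [hT']; ring
    _ ≤ _ := mul_le_mul_of_nonneg_left h7 hT'0.le

lemma Jcrit_mono (lam : ℝ) {T T' : ℝ} (h : T ≤ T') : Jcrit lam T ≤ Jcrit lam T' := by
  unfold Jcrit
  rw [finsum_mem_eq_finite_toFinset_sum _ (critSimple_finite T),
    finsum_mem_eq_finite_toFinset_sum _ (critSimple_finite T')]
  refine Finset.sum_le_sum_of_subset_of_nonneg ?_ fun s _ _ => by positivity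
  intro s hs
  rw [Set.Finite.mem_toFinset] at hs ⊢
  obtain ⟨⟨h1, h2, h3, h4, h5⟩, h6, h7⟩ := hs
  exact ⟨⟨h1, h2, h3, h4, h5.trans h⟩, h6, h7⟩

open Classical in
lemma Jcrit_step (lam : ℝ) {T : ℝ} (hT : 1 ≤ T) : Jcrit lam (2 * T) ≤ Jcrit lam T +
    ∑ s ∈ (H370.Zf riemannZeta T (2 * T)).filter (fun s => s.re = 1 / 2), ‖deriv riemannZeta s‖ ^ (2 * lam) := by
  unfold Jcrit
  rw [finsum_mem_eq_finite_toFinset_sum _ (critSimple_finite T),
    finsum_mem_eq_finite_toFinset_sum _ (critSimple_finite (2 * T))]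
  have hsub : (critSimple_finite (2 * T)).toFinset ⊆ (critSimple_finite T).toFinset ∪
      (H370.Zf riemannZeta T (2 * T)).filter (fun s => s.re = 1 / 2) := by
    intro s hs
    rw [Set.Finite.mem_toFinset] at hs
    rw [Finset.mem_union, Set.Finite.mem_toFinset, Finset.mem_filter]
    obtain ⟨⟨h1, h2, h3, h4, h5⟩, h6, h7⟩ := hs
    rcases le_or_gt s.im T with h | h
    · exact Or.inl ⟨⟨h1, h2, h3, h4, h⟩, h6, h7⟩
    · exact Or.inr ⟨(H370.mem_Zf H370.good_zeta hT).mpr ⟨h2, h3, h, h5, h1⟩, h6⟩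
  refine (Finset.sum_le_sum_of_subset_of_nonneg hsub fun s _ _ => by positivity).trans ?_
  have h1 := Finset.sum_union_inter (s₁ := (critSimple_finite T).toFinset)
    (s₂ := (H370.Zf riemannZeta T (2 * T)).filter (fun s => s.re = 1 / 2))
    (f := fun s => ‖deriv riemannZeta s‖ ^ (2 * lam))
  have h2 : 0 ≤ ∑ s ∈ (critSimple_finite T).toFinset ∩
      (H370.Zf riemannZeta T (2 * T)).filter (fun s => s.re = 1 / 2), ‖deriv riemannZeta s‖ ^ (2 * lam) :=
    Finset.sum_nonneg fun s _ => by positivity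
  linarith

/-- the upper bound -/
theorem upper {lam : ℝ} (h0 : 0 < lam) (h2 : lam < 2) {ε : ℝ} (hε : 0 < ε) : ∀ᶠ T : ℝ in atTop,
    Jcrit lam T ≤ T * Real.log T ^ ((lam + 1) ^ 2 + ε) := by
  have hU := Pool.Agent.Y745.UP.a_UPB lam (ε / 2) h0 h2 (by positivity)
  rw [Filter.eventually_atTop] at hU
  obtain ⟨T1, hT1⟩ := hU
  set T0 := max T1 3 with hT0
  have hT03 : 3 ≤ T0 := le_max_right _ _
  have hT0' : T1 ≤ T0 := le_max_left _ _
  set p : ℝ := (lam + 1) ^ 2 + ε / 2 with hp
  have hp0 : 0 < p := by positivity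
  have hind : ∀ n : ℕ, ∀ T : ℝ, T0 ≤ T → T ≤ 2 ^ n * (2 * T0) →
      Jcrit lam T ≤ Jcrit lam (2 * T0) + T * Real.log T ^ p := by
    intro n
    induction n with
    | zero =>
      intro T hT hT'
      rw [pow_zero, one_mul] at hT'
      have h1 := Jcrit_mono lam hT'
      have h3 : 0 ≤ T * Real.log T ^ p :=
        mul_nonneg (by linarith) (Real.rpow_nonneg (Real.log_nonneg (by linarith)) _)
      linarith
    | succ n ih =>
      intro T hT hT'
      rcases le_or_gt T (2 * T0) with h | h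
      · have h1 := Jcrit_mono lam h
        have h3 : 0 ≤ T * Real.log T ^ p :=
          mul_nonneg (by linarith) (Real.rpow_nonneg (Real.log_nonneg (by linarith)) _)
        linarith
      · have hh : T0 ≤ T / 2 := by linarith
        have h1 := ih (T / 2) hh (by rw [pow_succ] at hT'; linarith)
        have h3 := Jcrit_step lam (show 1 ≤ T / 2 by linarith)
        have h4 := hT1 (T / 2) (hT0'.trans hh)
        have e : 2 * (T / 2) = T := by ring
        rw [e] at h3 h4
        have h5 : Real.log (T / 2) ^ p ≤ Real.log T ^ p :=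
          Real.rpow_le_rpow (Real.log_nonneg (by linarith)) (Real.log_le_log (by linarith) (by linarith)) hp0.le
        have h6 : T / 2 * Real.log (T / 2) ^ p ≤ T / 2 * Real.log T ^ p :=
          mul_le_mul_of_nonneg_left h5 (by linarith)
        linarith
  have hconst : ∀ᶠ T : ℝ in atTop, Jcrit lam (2 * T0) ≤ T := eventually_ge_atTop _
  have hbig := Real.tendsto_log_atTop.eventually
    ((tendsto_rpow_atTop (show 0 < ε / 2 by positivity)).eventually_ge_atTop 2)
  filter_upwards [hconst, hbig, Real.tendsto_log_atTop.eventually_ge_atTop 1, eventually_ge_atTop T0] with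
    T h1 h3 h4 h5
  have hT0p : 0 < T := by linarith
  obtain ⟨n, hn⟩ := pow_unbounded_of_one_lt (T / (2 * T0)) (show (1:ℝ) < 2 by norm_num)
  have h6 := hind n T h5 (by
    rw [div_lt_iff₀ (by linarith)] at hn
    exact hn.le)
  have h7 : 1 ≤ Real.log T ^ p := Real.one_le_rpow h4 hp0.le
  have h8 : Jcrit lam (2 * T0) + T * Real.log T ^ p ≤ 2 * (T * Real.log T ^ p) := by nlinarith
  have h9 : Real.log T ^ ((lam + 1) ^ 2 + ε) = Real.log T ^ (ε / 2) * Real.log T ^ p := by
    rw [← Real.rpow_add (by linarith)]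
    congr 1
    rw [hp]; ring
  rw [h9]
  refine h6.trans (h8.trans ?_)
  calc 2 * (T * Real.log T ^ p) ≤ Real.log T ^ (ε / 2) * (T * Real.log T ^ p) :=
        mul_le_mul_of_nonneg_right h3 (by positivity)
    _ = _ := by ring

lemma tendsto_of_bounds {f : ℝ → ℝ} {a : ℝ}
    (hlo : ∀ ε : ℝ, 0 < ε → ∀ᶠ T : ℝ in atTop, T * Real.log T ^ (a - ε) ≤ f T)
    (hup : ∀ ε : ℝ, 0 < ε → ∀ᶠ T : ℝ in atTop, f T ≤ T * Real.log T ^ (a + ε)) :
    Tendsto (fun T : ℝ => Real.log (f T / T) / Real.log (Real.log T)) atTop (𝓝 a) := by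
  have hLL : Tendsto (fun T : ℝ => Real.log (Real.log T)) atTop atTop :=
    Real.tendsto_log_atTop.comp Real.tendsto_log_atTop
  rw [Metric.tendsto_nhds]
  intro e he
  filter_upwards [hlo (e / 2) (by positivity), hup (e / 2) (by positivity), hLL.eventually_ge_atTop 1,
    Real.tendsto_log_atTop.eventually_ge_atTop 1, eventually_ge_atTop 1] with T h1 h2 h3 h4 h5
  have hT0 : 0 < T := by linarith
  have hL0 : 0 < Real.log T := by linarith
  have hLL0 : 0 < Real.log (Real.log T) := by linarith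
  have p1 : Real.log T ^ (a - e / 2) ≤ f T / T := by
    rw [le_div_iff₀ hT0]; linarith
  have p2 : f T / T ≤ Real.log T ^ (a + e / 2) := by
    rw [div_le_iff₀ hT0]; linarith
  have p0 : 0 < f T / T := lt_of_lt_of_le (Real.rpow_pos_of_pos hL0 _) p1
  have q1 : (a - e / 2) * Real.log (Real.log T) ≤ Real.log (f T / T) := by
    have := Real.log_le_log (Real.rpow_pos_of_pos hL0 _) p1
    rwa [Real.log_rpow hL0] at this
  have q2 : Real.log (f T / T) ≤ (a + e / 2) * Real.log (Real.log T) := by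
    have := Real.log_le_log p0 p2
    rwa [Real.log_rpow hL0] at this
  rw [Real.dist_eq, abs_lt]
  constructor
  · have : a - e / 2 ≤ Real.log (f T / T) / Real.log (Real.log T) := by
      rw [le_div_iff₀ hLL0]; exact q1
    linarith
  · have : Real.log (f T / T) / Real.log (Real.log T) ≤ a + e / 2 := by
      rw [div_le_iff₀ hLL0]; exact q2
    linarith

theorem result :
    -- the exponent for the zeros on the critical line
    (∀ lam : ℝ, 0 < lam → lam < 2 → Tendsto (fun T : ℝ =>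
      Real.log (Jcrit lam T / T) / Real.log (Real.log T)) atTop (𝓝 ((lam + 1) ^ 2))) ∧
    -- lower bounds for all real exponents
    (∀ lam ε : ℝ, 0 < ε → ∃ T₀ : ℝ, ∀ T : ℝ, T₀ ≤ T →
      T * Real.log T ^ ((lam + 1) ^ 2 - ε) ≤ Jcrit lam T ∧
        (SZC → T * Real.log T ^ ((lam + 1) ^ 2 - ε) ≤ J lam T)) := by
  refine ⟨fun lam h0 h2 => tendsto_of_bounds (fun ε hε => main lam ε hε) fun ε hε => upper h0 h2 hε, ?_⟩
  intro lam ε hε
  rw [← Filter.eventually_atTop]
  filter_upwards [main lam ε hε] with T hT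
  exact ⟨hT, fun _ => hT.trans (J_ge lam T)⟩

end Pool.Agent.Results.MP_69b2e4_nt.CriticalExponents
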